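import Pool.Agent.Lib.MP_07717f_lc.S3.Two

/-!
For every rank `k ≥ 2`: a quotient of the free group of rank `k` that is solvable of derived length
at most three, residually a finite 2-group, has co-c.e. word problem and is isomorphic to no
subgroup of the group of computable permutations.
-/

set_option autoImplicit false

namespace Pool.Agent.Results.MP_07717f_lc.SolvableTwoGen

theorem computable_inv {σ : Equiv.Perm ℕ} (h : Computable σ) : Computable ⇑σ⁻¹ := by
  have heq : Computable₂ fun a b : ℕ => decide (a = b) := Primrec.eq.decide.to_comp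
  have h1 : Computable₂ fun y x : ℕ => decide (σ x = y) :=
    heq.comp (h.comp Computable.snd) Computable.fst
  refine (Partrec.rfind h1.partrec₂).of_eq_tot fun y => Nat.mem_rfind.2 ⟨by simp, fun {m} hm => ?_⟩
  have : σ m ≠ y := by
    rintro rfl
    simp at hm
  simp [this]

/-- The group of all computable permutations of the natural numbers. -/
def Srec : Subgroup (Equiv.Perm ℕ) where
  carrier := {σ | Computable σ}
  one_mem' := Computable.id
  mul_mem' := fun {a b} ha hb => Computable.comp (f := a) (g := b) ha hb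
  inv_mem' := computable_inv

open Pool.Agent.Lib.MP_07717f_lc

theorem result (k : ℕ) (hk : 2 ≤ k) : ∃ (N : Subgroup (FreeGroup (Fin k))) (_ : N.Normal),
    derivedSeries (FreeGroup (Fin k) ⧸ N) 3 = ⊥ ∧
    REPred (fun w : List (Fin k × Bool) => FreeGroup.mk w ∉ N) ∧
    (∀ w : FreeGroup (Fin k), w ∉ N → ∃ (Q : Type) (_ : Group Q) (_ : Finite Q)
      (r : FreeGroup (Fin k) →* Q), IsPGroup 2 Q ∧ (∀ x ∈ N, r x = 1) ∧ r w ≠ 1) ∧
    ∀ H : Subgroup Srec, IsEmpty ((FreeGroup (Fin k) ⧸ N) ≃* H) := by
  obtain ⟨n, rfl⟩ : ∃ n, k = n + 2 := ⟨k - 2, by omega⟩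
  have := N2_normal (n := n)
  refine ⟨N2 n, this, ?_, N2_re, fun w hw => ?_, fun H => ⟨fun e => ?_⟩⟩
  · rw [← map_derivedSeries_eq (QuotientGroup.mk'_surjective (N2 n)), Subgroup.map_eq_bot_iff,
      QuotientGroup.ker_mk']
    exact derived_le_N2
  · obtain ⟨Q, i1, i2, r, h1, h2, h3⟩ := res_two (iota n w) hw
    exact ⟨Q, i1, i2, r.comp (iota n), h1, fun x hx => h2 _ hx, h3⟩
  · let f := Srec.subtype.comp (H.subtype.comp e.toMonoidHom)
    have hf : Function.Injective f :=
      Srec.subtype_injective.comp (H.subtype_injective.comp e.injective)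
    refine N2_not_embed (f.comp (QuotientGroup.mk' (N2 n))) (fun w => ?_) fun w => (e _).1.2
    rw [MonoidHom.comp_apply, map_eq_one_iff f hf]
    exact QuotientGroup.eq_one_iff w

end Pool.Agent.Results.MP_07717f_lc.SolvableTwoGen
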